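import Pool.Agent.H84.S2.TgE
import Pool.Agent.H64.SF.FLZ
import Pool.Agent.H29.SF.FBZ

/-!
# MP_70ba79_ag, board s2l_modules: row E_X14 (the curves of bounded degree which are not of log
general type)
-/

set_option autoImplicit false

namespace Pool.Agent.H86.S2

open MvPolynomial SC
open Pool.Agent.H27.LV (ge deg poleOrder canDeg DegreeBound)
open Pool.Agent.H84.SM (cr dt dp)
open Pool.Agent.H84.SL (pd)
open Pool.Agent.H92.SF (Q2)
open Pool.Agent.H3.SF (Itg Bb BB Hm eu grd hes Sfc Crd Cnn Crf Prm nv Vl VQ evc FE E)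
open Pool.Agent.H84.SF
open Pool.Agent.H3.S2
open Pool.Agent.H84.S2
open Pool.Agent.H29.SF

theorem dvd_bound {k : Type} [Field k] {G S : Polynomial k} {N M : ℕ} (hS : S ≠ 0)
    (h : G ∣ Polynomial.X ^ N * S) (hG : G.natDegree ≤ M) : G ∣ Polynomial.X ^ M * S := by
  have hG0 : G ≠ 0 := by
    rintro rfl
    exact mul_ne_zero (pow_ne_zero _ Polynomial.X_ne_zero) hS (zero_dvd_iff.1 h)
  obtain ⟨R, hR, hR0⟩ := Polynomial.exists_eq_pow_rootMultiplicity_mul_and_not_dvd G hG0 0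
  rw [Polynomial.C_0, sub_zero] at hR hR0
  obtain ⟨a, ha⟩ : ∃ a, a = G.rootMultiplicity 0 := ⟨_, rfl⟩
  rw [← ha] at hR
  have hcop : IsCoprime Polynomial.X R := (Polynomial.irreducible_X.coprime_iff_not_dvd).2 hR0
  have h1 : R ∣ S := by
    have h2 : R ∣ Polynomial.X ^ N * S := (Dvd.intro_left _ hR.symm).trans h
    exact (hcop.pow_left (m := N)).symm.dvd_of_dvd_mul_left h2
  have haM : a ≤ M := by
    refine le_trans ?_ hG
    have hR1 : R ≠ 0 := by
      rintro rfl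
      exact hR0 (dvd_zero _)
    rw [hR, Polynomial.natDegree_X_pow_mul _ hR1]
    omega
  rw [hR]
  exact mul_dvd_mul (pow_dvd_pow _ haM) h1

theorem pf_X14 (hP1S : T_P1S) (hFA4 : T_FA4) : T_X14 := by
  intro k F σ _ _ _ _ _ _ X u θ dd J δ j0 c0 c hS m GP sg SP hm hGh hSh hCv e0
  have hF := fun e (he : 1 ≤ e) => hFA4 k F σ X u θ dd J δ j0 c0 c hS m GP sg SP hm hGh hSh hCv e
    (m * e0) he
  choose! N Ψ h0 hh hΨ using hF
  have hId : HId (RingHom.ker (aeval X : MvPolynomial σ k →ₐ[k] F)) := fun f hf d =>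
    RingHom.mem_ker.2 (comp_zero X u dd hS.prj.Xeu X (fun _ h => h) f (RingHom.mem_ker.1 hf) d)
  have hmem : ∀ e ∈ Finset.Icc 1 e0, 1 ≤ e := fun e he => (Finset.mem_Icc.1 he).1
  refine ⟨∑ e ∈ Finset.Icc 1 e0, N e, ∏ e ∈ Finset.Icc 1 e0, Ψ e, ?_, ?_, ?_⟩
  · exact Finset.prod_ne_zero_iff.2 fun I hI => h0 I (hmem I hI)
  · exact IsHomogeneous.prod _ _ _ fun I hI => hh I (hmem I hI)
  · intro K _ _ _ htr D hD z S hPr hCrv hdeg hneg
    obtain ⟨p, t, y, N0, hy, hx, he, hpd, hpe, hp0, hSp, hG, hI⟩ :=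
      hP1S k σ _ hId GP m SP sg (by omega) hGh hSh K htr D hD z S hPr hCrv hneg
    have ha : (aeval p GP).natDegree ≤ m * e0 := by
      have h1 := natDegree_aeval_le GP m (deg k z) hGh p hpd
      exact h1.trans (Nat.mul_le_mul_left m hdeg)
    have hI2 : deg k z ∈ Finset.Icc 1 e0 := Finset.mem_Icc.2 ⟨he, hdeg⟩
    have h1 := hΨ (deg k z) he p hpd hpe hp0
      (fun f hf => hI f (RingHom.mem_ker.2 hf)) hSp (dvd_bound hSp hG ha)
    have h2 : aeval (lin c z) (Ψ (deg k z)) = 0 := by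
      have h3 : lin c z = fun l => y * Polynomial.aeval t (lin c p l) := by
        funext l
        have h4 : z = fun i => y * Polynomial.aeval t (p i) := funext hx
        rw [← lin_map c (Polynomial.aeval t) p l, ← lin_mul, ← h4]
      have h4 : aeval (fun l => Polynomial.aeval t (lin c p l)) (Ψ (deg k z)) =
          Polynomial.aeval t (aeval (lin c p) (Ψ (deg k z))) := by
        rw [← comp_aeval_apply]
      rw [h3, aeval_mul_hom _ _ (hh _ he), h4, h1, map_zero, mul_zero]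
    rw [map_prod]
    exact Finset.prod_eq_zero hI2 h2

end Pool.Agent.H86.S2
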